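import Pool.Agent.H992.PL.Defs

/-!
# Periodised couplings and infinite volume limits (task PL6)
-/

set_option autoImplicit false

noncomputable section

namespace Pool.Agent.H894.PL

open MeasureTheory Pool.Agent.H5R2.ON Pool.Agent.H717R2.ON3 Pool.Agent.H983R2.ONJ

/-- the integer points over the torus -/
def pt (L : ℕ) (p : Tor L × (ℤ × ℤ)) : ℤ × ℤ :=
  (p.1.1.valMinAbs + L * p.2.1, p.1.2.valMinAbs + L * p.2.2)

theorem pt_inj (L : ℕ) [NeZero L] : Function.Injective (pt L) := by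
  rintro ⟨x, k⟩ ⟨y, j⟩ h
  have hL : (L : ℤ) ≠ 0 := by exact_mod_cast NeZero.ne L
  have h1 : x.1.valMinAbs + L * k.1 = y.1.valMinAbs + L * j.1 := congrArg Prod.fst h
  have h2 : x.2.valMinAbs + L * k.2 = y.2.valMinAbs + L * j.2 := congrArg Prod.snd h
  have h3 : x.1 = y.1 := by
    have := congrArg (fun z : ℤ => (z : ZMod L)) h1
    simpa using this
  have h4 : x.2 = y.2 := by
    have := congrArg (fun z : ℤ => (z : ZMod L)) h2
    simpa using this
  rw [h3] at h1
  rw [h4] at h2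
  have h5 : k.1 = j.1 := mul_left_cancel₀ hL (add_left_cancel h1)
  have h6 : k.2 = j.2 := mul_left_cancel₀ hL (add_left_cancel h2)
  exact Prod.ext (Prod.ext h3 h4) (Prod.ext h5 h6)

theorem znorm_nonneg (m : ℤ × ℤ) : 0 ≤ znorm m := Real.sqrt_nonneg _

theorem per : Pool.Agent.H992.PL.S_Per := by
  intro J w hJ hw hw1 hs L _
  refine ⟨fun x hx => Jper_nonneg hJ hx, ?_⟩
  set f : ℤ × ℤ → ℝ := fun m => |J m| * w (znorm m) with hf
  have hf0 : ∀ m, 0 ≤ f m := fun m =>
    mul_nonneg (abs_nonneg _) (zero_le_one.trans (hw1 _ (znorm_nonneg m)))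
  have hJs : Summable (fun m => |J m|) := by
    refine Summable.of_nonneg_of_le (fun m => abs_nonneg _) (fun m => ?_) hs
    have := hw1 _ (znorm_nonneg m)
    nlinarith [abs_nonneg (J m)]
  have hcomp : Summable (f ∘ pt L) := hs.comp_injective (pt_inj L)
  have hk : ∀ x : Tor L, Function.Injective (fun k : ℤ × ℤ => (x, k)) := fun x a b h =>
    (Prod.mk.inj h).2
  have hfx : ∀ x : Tor L, Summable (fun k => f (pt L (x, k))) := fun x =>
    hcomp.comp_injective (hk x)
  have hJx : ∀ x : Tor L, Summable (fun k => |J (pt L (x, k))|) := fun x =>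
    (hJs.comp_injective (pt_inj L)).comp_injective (hk x)
  have h1 : ∀ x : Tor L, Jper L J x * w (tnorm x) ≤ ∑' k, f (pt L (x, k)) := by
    intro x
    have hwx : 0 ≤ w (tnorm x) := zero_le_one.trans (hw1 _ (tnorm_nonneg x))
    unfold Jper
    rw [← tsum_mul_right]
    refine Summable.tsum_le_tsum (fun k => ?_) (((hJx x).of_abs).mul_right _) (hfx x)
    exact mul_le_mul (le_abs_self _) (hw _ _ (znorm_shift x k).1) hwx (abs_nonneg _)
  have h2 : ∀ x : Tor L, 0 ≤ ∑' k, f (pt L (x, k)) := fun x => tsum_nonneg fun k => hf0 _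
  calc ∑ x ∈ Finset.univ.filter (fun x : Tor L => x ≠ 0), Jper L J x * w (tnorm x)
      ≤ ∑ x ∈ Finset.univ.filter (fun x : Tor L => x ≠ 0), ∑' k, f (pt L (x, k)) :=
        Finset.sum_le_sum fun x _ => h1 x
    _ ≤ ∑ x : Tor L, ∑' k, f (pt L (x, k)) :=
        Finset.sum_le_sum_of_subset_of_nonneg (Finset.filter_subset _ _) fun x _ _ => h2 x
    _ = ∑' p : Tor L × (ℤ × ℤ), f (pt L p) := by
        have h3 : ∑' p : Tor L × (ℤ × ℤ), (f ∘ pt L) p = ∑' x, ∑' k, (f ∘ pt L) (x, k) :=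
          Summable.tsum_prod' hcomp hfx
        have h4 : ∑' x : Tor L, ∑' k, (f ∘ pt L) (x, k) = ∑ x : Tor L, ∑' k, (f ∘ pt L) (x, k) :=
          tsum_fintype _
        exact (h3.trans h4).symm
    _ ≤ ∑' m, f m := tsum_comp_le_tsum_of_inj hs hf0 (pt_inj L)

theorem lim : Pool.Agent.H992.PL.S_Lim := by
  intro N J β w C hw hC G hG
  obtain ⟨l, hl, hlim⟩ := hG
  have hnn : ∀ x : ℤ × ℤ, 0 ≤ |G x| * w (znorm x) := fun x => mul_nonneg (abs_nonneg _) (hw _)
  have key : ∀ F : Finset (ℤ × ℤ), ∑ x ∈ F, |G x| * w (znorm x) ≤ C := by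
    intro F
    have ht : Filter.Tendsto (fun n => ∑ x ∈ F,
        |corr N (l n + 1) J β 0 ((x.1 : ZMod (l n + 1)), (x.2 : ZMod (l n + 1)))| * w (znorm x))
        Filter.atTop (nhds (∑ x ∈ F, |G x| * w (znorm x))) :=
      tendsto_finsetSum _ fun x _ => ((hlim x).abs).mul_const _
    refine le_of_tendsto ht ?_
    set B : ℕ := ∑ x ∈ F, (x.1.natAbs + x.2.natAbs) * 2 with hB
    filter_upwards [hl.eventually_ge_atTop B] with n hn
    have hb : ∀ x ∈ F, |x.1| * 2 < ((l n + 1 : ℕ) : ℤ) ∧ |x.2| * 2 < ((l n + 1 : ℕ) : ℤ) := by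
      intro x hx
      have h1 : (x.1.natAbs + x.2.natAbs) * 2 ≤ B :=
        Finset.single_le_sum (f := fun x : ℤ × ℤ => (x.1.natAbs + x.2.natAbs) * 2)
          (fun i _ => Nat.zero_le _) hx
      have h2 : ((x.1.natAbs + x.2.natAbs) * 2 : ℤ) ≤ l n := by
        have := h1.trans hn
        exact_mod_cast this
      rw [Int.natCast_natAbs, Int.natCast_natAbs] at h2
      push_cast
      constructor
      · have := abs_nonneg x.2
        linarith
      · have := abs_nonneg x.1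
        linarith
    have hnorm : ∀ x ∈ F, tnorm (((x.1 : ZMod (l n + 1)), (x.2 : ZMod (l n + 1))) : Tor (l n + 1))
        = znorm x := fun x hx => tnorm_cast x.1 x.2 (hb x hx).1 (hb x hx).2
    have hinj : Set.InjOn (fun x : ℤ × ℤ =>
        (((x.1 : ZMod (l n + 1)), (x.2 : ZMod (l n + 1))) : Tor (l n + 1))) F := by
      have hv : ∀ c : ℤ, |c| * 2 < ((l n + 1 : ℕ) : ℤ) → (c : ZMod (l n + 1)).valMinAbs = c := by
        intro c hc
        rw [ZMod.valMinAbs_spec]
        refine ⟨rfl, ?_, ?_⟩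
        · have := neg_abs_le c
          linarith
        · have := le_abs_self c
          linarith
      intro x hx y hy h
      have h1 : (x.1 : ZMod (l n + 1)) = (y.1 : ZMod (l n + 1)) := congrArg Prod.fst h
      have h2 : (x.2 : ZMod (l n + 1)) = (y.2 : ZMod (l n + 1)) := congrArg Prod.snd h
      have h3 := congrArg ZMod.valMinAbs h1
      have h4 := congrArg ZMod.valMinAbs h2
      rw [hv _ (hb x hx).1, hv _ (hb y hy).1] at h3
      rw [hv _ (hb x hx).2, hv _ (hb y hy).2] at h4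
      exact Prod.ext h3 h4
    calc ∑ x ∈ F, |corr N (l n + 1) J β 0 ((x.1 : ZMod (l n + 1)), (x.2 : ZMod (l n + 1)))| *
          w (znorm x)
        = ∑ x ∈ F, |corr N (l n + 1) J β 0 ((x.1 : ZMod (l n + 1)), (x.2 : ZMod (l n + 1)))| *
          w (tnorm (((x.1 : ZMod (l n + 1)), (x.2 : ZMod (l n + 1))) : Tor (l n + 1))) :=
          Finset.sum_congr rfl fun x hx => by rw [hnorm x hx]
      _ = ∑ y ∈ F.image (fun x : ℤ × ℤ =>
            (((x.1 : ZMod (l n + 1)), (x.2 : ZMod (l n + 1))) : Tor (l n + 1))),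
            |corr N (l n + 1) J β 0 y| * w (tnorm y) := by
          rw [Finset.sum_image hinj]
      _ ≤ ∑ y : Tor (l n + 1), |corr N (l n + 1) J β 0 y| * w (tnorm y) :=
          Finset.sum_le_sum_of_subset_of_nonneg (Finset.subset_univ _) fun y _ _ =>
            mul_nonneg (abs_nonneg _) (hw _)
      _ ≤ C := hC (l n + 1)
  have hsum : Summable (fun x => |G x| * w (znorm x)) := summable_of_sum_le hnn key
  exact ⟨hsum, hsum.tsum_le_of_sum_le key⟩

end Pool.Agent.H894.PL
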